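import Pool.Agent.X145.RC.Side
import Pool.Agent.H731R3.Cardy.Inf

/-!
Connections between subsets of opposite sides of a rectangle: translation to walks.
-/

set_option autoImplicit false

namespace Pool.Agent.X145.RC

open H974 H973 H934E Finset MeasureTheory
open Pool.Agent.TH966.GB Pool.Agent.H160R2.CV
open Pool.Agent.H160R2.CV.Quad Pool.Agent.TH966.CC

/-- Some `(0, s)`, `s ∈ S`, is joined to some `(w, t)`, `t ∈ T`, in `[0, w] × [0, h]`. -/
def J (w h : ℤ) (S T : Set ℤ) : Set (sqLattice.edgeSet → Bool) :=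
  {ω | ∃ s ∈ S, ∃ t ∈ T, ∃ p : (openGraph ω).Walk (0, s) (w, t),
    ∀ v ∈ p.support, (0 ≤ v.1 ∧ v.1 ≤ w) ∧ (0 ≤ v.2 ∧ v.2 ≤ h)}

theorem walk_reachR {w h : ℤ} {ω : sqLattice.edgeSet → Bool} {u v : ℤ × ℤ}
    (p : (openGraph ω).Walk u v) :
    (∀ z ∈ p.support, (0 ≤ z.1 ∧ z.1 ≤ w) ∧ (0 ≤ z.2 ∧ z.2 ≤ h)) →
      Reach (opn ω ∩ ↑(RE 0 w 0 h)) u v := by
  induction p with
  | nil => intro _; exact Relation.ReflTransGen.refl
  | cons hadj p ih =>
    rename_i u x z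
    intro hs
    have hr := ih (fun t ht => hs t (by simp [ht]))
    have hu := hs u (by simp)
    have hx := hs x (by simp)
    obtain ⟨e, he, hc⟩ := (openGraph_adj ω u x).mp hadj
    have iu : inR 0 w 0 h u := by unfold inR; omega
    have ix : inR 0 w 0 h x := by unfold inR; omega
    have he2 : e ∈ RE 0 w 0 h := by
      rcases hc with ⟨h1, h2⟩ | ⟨h1, h2⟩
      · exact H731C.RE_of_ends (by rw [h1]; exact iu) (by rw [h2]; exact ix)
      · exact H731C.RE_of_ends (by rw [h1]; exact ix) (by rw [h2]; exact iu)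
    exact Relation.ReflTransGen.head ⟨e, ⟨he, Finset.mem_coe.mpr he2⟩, hc⟩ hr

theorem reach_walkR {w h : ℤ} {ω : sqLattice.edgeSet → Bool} {u v : ℤ × ℤ}
    (hu : (0 ≤ u.1 ∧ u.1 ≤ w) ∧ (0 ≤ u.2 ∧ u.2 ≤ h))
    (hr : Reach (opn ω ∩ ↑(RE 0 w 0 h)) u v) :
    ∃ p : (openGraph ω).Walk u v, ∀ z ∈ p.support, (0 ≤ z.1 ∧ z.1 ≤ w) ∧ (0 ≤ z.2 ∧ z.2 ≤ h) := by
  induction hr with
  | refl => exact ⟨SimpleGraph.Walk.nil, by simpa using hu⟩
  | tail _ hs ih =>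
    rename_i b c _
    obtain ⟨p, hp⟩ := ih
    have hc : (0 ≤ c.1 ∧ c.1 ≤ w) ∧ (0 ≤ c.2 ∧ c.2 ≤ h) := by
      obtain ⟨e, ⟨-, he⟩, hc⟩ := hs
      have := H731C.RE_ends (Finset.mem_coe.mp he)
      unfold inR at this
      rcases hc with ⟨h1, h2⟩ | ⟨h1, h2⟩
      · rw [← h2]; exact this.2
      · rw [← h1]; exact this.1
    have hadj : (openGraph ω).Adj b c :=
      (openGraph_adj ω b c).mpr (Adj.mono Set.inter_subset_left hs)
    refine ⟨p.concat hadj, ?_⟩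
    intro z hz
    rw [SimpleGraph.Walk.support_concat] at hz
    have hz' : z ∈ p.support ∨ z = c := by simpa using hz
    rcases hz' with h | h
    · exact hp z h
    · rw [h]; exact hc

theorem J_real {w h : ℤ} (hw : 0 ≤ w) (S T : Finset ℤ) (hS : ∀ x ∈ S, 0 ≤ x ∧ x ≤ h) :
    (bondLaw H731C.half).real (J w h ↑S ↑T) = Pr P (RE 0 w 0 h) (Cr w h S T) := by
  have h1 : J w h ↑S ↑T = {ω | Cr w h S T (FF (RE 0 w 0 h) ω)} := by
    ext ω
    show _ ↔ ∃ s ∈ S, ∃ t ∈ T, Reach (↑(FF (RE 0 w 0 h) ω) ∩ ↑(RE 0 w 0 h)) (0, s) (w, t)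
    rw [FF_coe, Set.inter_assoc, Set.inter_self]
    constructor
    · rintro ⟨s, hs, t, ht, p, hp⟩
      exact ⟨s, hs, t, ht, walk_reachR p hp⟩
    · rintro ⟨s, hs, t, ht, hr⟩
      have := hS s hs
      obtain ⟨p, hp⟩ := reach_walkR (by simp only; omega) hr
      exact ⟨s, hs, t, ht, p, hp⟩
  rw [h1, law_event]
  rfl

theorem full_real {w h : ℤ} (hw : 1 ≤ w) :
    (bondLaw H731C.half).real (J w h (Set.Icc 0 h) (Set.Icc 0 h)) = hh (1/2) w h := by
  have h1 := J_real (w := w) (h := h) (by omega) (Icc 0 h) (Icc 0 h)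
    (fun x hx => Finset.mem_Icc.mp hx)
  rw [Finset.coe_Icc] at h1
  rw [h1]
  have b3 : Pr P (RE 0 w 0 h) (LRc 0 w 0 h) = hh (1/2) w h := by
    have := pr_LRc (1/2) (a := 0) (b := w) (c := 0) (d := h) (S := RE 0 w 0 h) LRE_subset_RE
    rw [sub_zero, sub_zero] at this
    exact this
  rw [← b3]
  apply Pr_congr
  intro F _
  constructor
  · rintro ⟨s, -, t, -, hr⟩
    exact LRc_of_reach (by omega) hr rfl rfl
  · rintro ⟨y, y', hy, hy', hr⟩
    exact ⟨y, Finset.mem_Icc.mpr hy, y', Finset.mem_Icc.mpr hy',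
      hr.mono (Set.inter_subset_inter_right _ (by exact_mod_cast LRE_subset_RE))⟩

/-- the kernel -/
noncomputable def kernel (h x y : ℤ) : ℝ :=
  (((h : ℝ) + 1) / (((|x - y| : ℤ) : ℝ) + 1)) ^ ((1 : ℝ) / 3)

noncomputable def energy (h : ℤ) (S : Finset ℤ) (v : ℤ → ℝ) : ℝ :=
  ∑ x ∈ S, ∑ y ∈ S, v x * v y * kernel h x y

noncomputable def capacity (h : ℤ) (S : Finset ℤ) : ℝ :=
  sSup {r | ∃ v : ℤ → ℝ, (∀ x ∈ S, 0 ≤ v x) ∧ ∑ x ∈ S, v x = 1 ∧ r = 1 / energy h S v}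

theorem kernel_eq {h x y : ℤ} (hh0 : 0 ≤ h) : kernel h x y = kern h x y := by
  have h1 : (0 : ℝ) < (h : ℝ) + 1 := by
    have : (0 : ℝ) ≤ h := by exact_mod_cast hh0
    linarith
  have h2 : (0 : ℝ) < ((|x - y| : ℤ) : ℝ) + 1 := by
    have : (0 : ℝ) ≤ ((|x - y| : ℤ) : ℝ) := by exact_mod_cast abs_nonneg (x - y)
    linarith
  unfold kernel kern TH966.CC.q th
  rw [Real.div_rpow h1.le h2.le]
  have e1 : ((h + 1 : ℤ) : ℝ) = (h : ℝ) + 1 := by push_cast; ring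
  have e2 : ((|x - y| + 1 : ℤ) : ℝ) = ((|x - y| : ℤ) : ℝ) + 1 := by push_cast; ring
  rw [e1, e2]
  have p1 := Real.rpow_pos_of_pos h1 ((1:ℝ)/3)
  have p2 := Real.rpow_pos_of_pos h2 ((1:ℝ)/3)
  field_simp

theorem energy_eq {h : ℤ} (hh0 : 0 ≤ h) (S : Finset ℤ) (v : ℤ → ℝ) : energy h S v = en h S v := by
  unfold energy en
  refine Finset.sum_congr rfl fun x _ => Finset.sum_congr rfl fun y _ => ?_
  rw [kernel_eq hh0]

theorem capacity_eq {h : ℤ} (hh0 : 0 ≤ h) (S : Finset ℤ) : capacity h S = Cap h S := by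
  unfold capacity Cap CS
  simp only [energy_eq hh0]

theorem main (κ : ℕ) (hκ : 1 ≤ κ) : ∃ c C : ℝ, 0 < c ∧ 0 < C ∧ ∀ w h : ℤ, 1 ≤ w → 1 ≤ h →
    h ≤ κ * w → ∀ T : Finset ℤ, (∀ x ∈ T, h ≤ κ * x ∧ h ≤ κ * (h - x)) →
    (c * ((bondLaw H731C.half).real (J w h (Set.Icc 0 h) (Set.Icc 0 h)) * capacity h T) ≤
        (bondLaw H731C.half).real (J w h (Set.Icc 0 h) ↑T) ∧
      (bondLaw H731C.half).real (J w h (Set.Icc 0 h) ↑T) ≤
        C * ((bondLaw H731C.half).real (J w h (Set.Icc 0 h) (Set.Icc 0 h)) * capacity h T)) ∧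
    ∀ S : Finset ℤ, (∀ x ∈ S, h ≤ κ * x ∧ h ≤ κ * (h - x)) →
      c * ((bondLaw H731C.half).real (J w h (Set.Icc 0 h) (Set.Icc 0 h)) * capacity h S *
          capacity h T) ≤ (bondLaw H731C.half).real (J w h ↑S ↑T) ∧
      (bondLaw H731C.half).real (J w h ↑S ↑T) ≤
        C * ((bondLaw H731C.half).real (J w h (Set.Icc 0 h) (Set.Icc 0 h)) * capacity h S *
          capacity h T) := by
  have hκ' : (1 : ℤ) ≤ κ := by exact_mod_cast hκ
  obtain ⟨c1, hc1, h1⟩ := side_low κ hκ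
  obtain ⟨C1, hC1, h2⟩ := side_up κ hκ
  obtain ⟨c2, hc2, h3⟩ := cr_low κ hκ
  obtain ⟨C2, hC2, h4⟩ := cr_up κ hκ
  refine ⟨min c1 c2, max C1 C2, lt_min hc1 hc2, lt_max_of_lt_left hC1, ?_⟩
  intro w h hw hh1 hhw T hT
  have hT' : ∀ x ∈ T, Mid κ h x := hT
  rw [full_real hw, capacity_eq (by omega)]
  have hnn := hh_nonneg (q := 1/2) (by norm_num) (by norm_num) w h
  have capT := Cap_nonneg κ hκ' (show 0 ≤ h by omega) hT'
  constructor
  · have e := J_real (w := w) (h := h) (by omega) (Icc 0 h) T (fun x hx => Finset.mem_Icc.mp hx)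
    rw [Finset.coe_Icc] at e
    rw [e]
    constructor
    · exact (mul_le_mul_of_nonneg_right (min_le_left _ _) (by positivity)).trans
        (h1 w h hw hh1 hhw T hT')
    · exact (h2 w h hw hh1 hhw T hT').trans
        (mul_le_mul_of_nonneg_right (le_max_left _ _) (by positivity))
  · intro S hS
    have hS' : ∀ x ∈ S, Mid κ h x := hS
    have capS := Cap_nonneg κ hκ' (show 0 ≤ h by omega) hS'
    rw [capacity_eq (by omega), J_real (w := w) (h := h) (by omega) S T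
      (fun x hx => (hS' x hx).pos hκ' (by omega))]
    constructor
    · exact (mul_le_mul_of_nonneg_right (min_le_right _ _) (by positivity)).trans
        (h3 w h hw hh1 hhw S T hS' hT')
    · exact (h4 w h hw hh1 hhw S T hS' hT').trans
        (mul_le_mul_of_nonneg_right (le_max_right _ _) (by positivity))

end Pool.Agent.X145.RC
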