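import Pool.Agent.TH966.CC.Main

/-!
The whole left side of a rectangle and a subset of the right side.
-/

set_option autoImplicit false
set_option maxHeartbeats 1000000

namespace Pool.Agent.X145.RC

open H974 H973 H934E Finset
open Pool.Agent.TH966.GB Pool.Agent.H160R2.CV
open Pool.Agent.H160R2.CV.Quad Pool.Agent.TH966.CC

/-- Deterministic gluing. -/
theorem join' {w m h : ℤ} {T : Finset ℤ} {F : Finset Edg} (hm : 1 ≤ m) (hmw : m ≤ w) (hh : 1 ≤ h)
    (h3 : LRc 0 w 0 h F) (h4 : TBc (w - m) w 0 h F) (h5 : RH w m h T F) :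
    Cr w h (Icc 0 h) T F := by
  obtain ⟨s', hs', t', ht', hr'⟩ := h5
  obtain ⟨z, z', hz, hz', hv'⟩ := h4
  obtain ⟨y, y', hy, hy', hl⟩ := h3
  have k0' : (↑F : Set Edg) ∩ ↑(RE (w - m) w 0 h) ⊆ ↑F ∩ ↑(RE 0 w 0 h) :=
    Set.inter_subset_inter_right _ (by exact_mod_cast RE_subset (by omega) le_rfl le_rfl le_rfl)
  have hv2 : Reach (↑F ∩ ↑(RE (w - m) w 0 h)) (z, 0) (z', h) :=
    hv'.mono (Set.inter_subset_inter_right _ (by exact_mod_cast TBE_sub _ _ _ _))
  have hl1 : Reach (↑F ∩ ↑(RE 0 w 0 h)) (0, y) (w, y') :=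
    hl.mono (Set.inter_subset_inter_right _ (by exact_mod_cast LRE_subset_RE))
  have a3 := cross_meet (F := ↑F) (A := 0) (B := w) (C := 0) (D := h) (a := w - m) (b := w)
    (c := 0) (d := h) (by omega) (by omega) le_rfl le_rfl (by omega) le_rfl hl1
    (by simp only; omega) le_rfl hv2 le_rfl le_rfl
  have a4 := cross_meet (F := ↑F) (A := w - m) (B := w) (C := 0) (D := h) (a := w - m) (b := w)
    (c := 0) (d := h) le_rfl (by omega) le_rfl le_rfl (by omega) le_rfl hr'.symm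
    le_rfl le_rfl hv2 le_rfl le_rfl
  exact ⟨y, Finset.mem_Icc.mpr hy, s', hs', a3.trans ((a4.symm.mono k0').trans (hr'.symm.mono k0'))⟩

/-- The connection is cut in two pieces. -/
theorem cut' {w m h : ℤ} {T : Finset ℤ} {F : Finset Edg} (hm : 1 ≤ m) (hmw : m < w)
    (hT : ∀ x ∈ T, 0 ≤ x ∧ x ≤ h)
    (h1 : Cr w h (Icc 0 h) T F) : LRc 0 (w - m) 0 h F ∧ RH w m h T F := by
  obtain ⟨s, hs, t, ht, hr⟩ := h1
  have hsr := Finset.mem_Icc.mp hs
  have htr := hT t ht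
  have hH : ∀ x y, ((x, y, true) : Edg) ∈ (↑F ∩ ↑(RE 0 w 0 h) : Set Edg) → 0 ≤ y ∧ y ≤ h := by
    rintro x y ⟨-, h⟩
    simp only [mem_coe, mem_RE_true] at h; omega
  have hV : ∀ x y, ((x, y, false) : Edg) ∈ (↑F ∩ ↑(RE 0 w 0 h) : Set Edg) → 0 ≤ y ∧ y < h := by
    rintro x y ⟨-, h⟩
    simp only [mem_coe, mem_RE_false] at h; omega
  refine ⟨?_, ?_⟩
  · obtain ⟨y1, y2, k1, k2, k3, k4⟩ := sub_LR (a := 0) (b := w - m) (c := 0) (d := h) (by omega)
      (fun x y h _ _ => hH x y h) (fun x y h _ _ => hV x y h) hr (by simp)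
      (by simp only; omega)
    exact ⟨y1, y2, k1, k2, k3.mono (by rintro e ⟨⟨h7, -⟩, h8⟩; exact ⟨h7, h8⟩)⟩
  · obtain ⟨t', ht', h2⟩ := right_part (m := w - m) (u := (w, t)) (v := (0, s))
      Set.inter_subset_right (by simp only; omega) htr (by simp only; omega) hr.symm
    exact ⟨t, ht, t', ht', h2.mono (by rintro e ⟨⟨h7, -⟩, h8⟩; exact ⟨h7, h8⟩)⟩

theorem side_low (κ : ℕ) (hκ : 1 ≤ κ) : ∃ c : ℝ, 0 < c ∧ ∀ w h : ℤ, 1 ≤ w → 1 ≤ h → h ≤ κ * w →
    ∀ T : Finset ℤ, (∀ x ∈ T, Mid κ h x) →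
    c * (hh (1/2) w h * Cap h T) ≤ Pr P (RE 0 w 0 h) (Cr w h (Icc 0 h) T) := by
  have hκ' : (1 : ℤ) ≤ κ := by exact_mod_cast hκ
  obtain ⟨c, C, hc, hC, h1⟩ := one_cap κ hκ'
  obtain ⟨c2, hc2, h2⟩ := rsw_all κ
  refine ⟨c2 * c, by positivity, fun w h hw hh1 hhw T hT => ?_⟩
  obtain ⟨m, hm⟩ : ∃ m, m = min w h := ⟨_, rfl⟩
  have hm1 : 1 ≤ m := by rw [hm]; exact le_min hw hh1
  have hmw : m ≤ w := by rw [hm]; exact min_le_left _ _
  have hmh : m ≤ h := by rw [hm]; exact min_le_right _ _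
  have hhm : h ≤ κ * m := by
    rw [hm]
    rcases min_choice w h with h3 | h3
    · rw [h3]; exact hhw
    · rw [h3]; nlinarith
  have hmk : m ≤ κ * h := by nlinarith
  have a5 := (h1 h m hh1 hhm hmk T hT).1
  rw [← pr_RH' hmw] at a5
  have sL : LRE 0 w 0 h ⊆ RE 0 w 0 h := LRE_subset_RE
  have s4 : TBE (w - m) w 0 h ⊆ RE 0 w 0 h :=
    TBE_subset_RE.trans (RE_subset (by omega) le_rfl le_rfl le_rfl)
  have b4 : c2 ≤ Pr P (RE 0 w 0 h) (TBc (w - m) w 0 h) := by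
    have e : Pr P (RE 0 w 0 h) (TBc (w - m) w 0 h) = hh (1/2) (h - 0) (w - (w - m)) :=
      pr_TBc (1/2) s4
    rw [e, sub_zero, sub_sub_cancel]
    exact h2 h m hm1 (by omega) hhm
  have b3 : Pr P (RE 0 w 0 h) (LRc 0 w 0 h) = hh (1/2) w h := by
    have := pr_LRc (1/2) sL
    rw [sub_zero, sub_zero] at this
    exact this
  have hnn := hh_nonneg (q := 1/2) (by norm_num) (by norm_num) w h
  set U := RE 0 w 0 h with hU
  have i5 : IncrE U (RH w m h T) := fun F G hFG _ hF => RH_inc w m h T F G hFG hF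
  have i4 : IncrE U (TBc (w - m) w 0 h) := TBc_incr _ _ _ _ _
  have i3 : IncrE U (LRc 0 w 0 h) := LRc_incr _ _ _ _ _
  have j3 := hmul i3 i4 hc2.le b3.ge b4
  have j4 := hmul (A := fun F => LRc 0 w 0 h F ∧ TBc (w - m) w 0 h F) (B := RH w m h T)
    (fun F G h3 h4 hF => ⟨i3 F G h3 h4 hF.1, i4 F G h3 h4 hF.2⟩) i5
    (mul_nonneg hc.le (Cap_nonneg κ hκ' (show 0 ≤ h by omega) hT)) j3 a5
  calc c2 * c * (hh (1/2) w h * Cap h T) = hh (1/2) w h * c2 * (c * Cap h T) := by ring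
    _ ≤ _ := j4
    _ ≤ _ := Pr_mono okP (by
        rintro F _ ⟨⟨g3, g4⟩, g5⟩
        exact join' hm1 hmw hh1 g3 g4 g5)

theorem side_up (κ : ℕ) (hκ : 1 ≤ κ) : ∃ C : ℝ, 0 < C ∧ ∀ w h : ℤ, 1 ≤ w → 1 ≤ h → h ≤ κ * w →
    ∀ T : Finset ℤ, (∀ x ∈ T, Mid κ h x) →
    Pr P (RE 0 w 0 h) (Cr w h (Icc 0 h) T) ≤ C * (hh (1/2) w h * Cap h T) := by
  have hκ' : (1 : ℤ) ≤ κ := by exact_mod_cast hκ
  have hκ6 : (1 : ℤ) ≤ 6 * κ := by omega
  obtain ⟨c, C, hc, hC, h1⟩ := one_cap (6 * κ) hκ6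
  obtain ⟨c3, hc3, h3⟩ := rsw_all 2
  obtain ⟨c6, hc6, h6⟩ := rsw_all (6 * κ)
  obtain ⟨c0, hc0, h0⟩ := Cap_low κ hκ'
  have hκ0 : (0 : ℝ) < κ := by exact_mod_cast (by omega : 0 < κ)
  obtain ⟨A, hA⟩ : ∃ A : ℝ, A = C / (c3 * c6) := ⟨_, rfl⟩
  obtain ⟨B, hB⟩ : ∃ B : ℝ, B = (2 * κ + 1) / (c3 * c0) := ⟨_, rfl⟩
  have hA0 : 0 < A := by rw [hA]; positivity
  have hB0 : 0 < B := by rw [hB]; positivity
  refine ⟨A + B, by positivity, fun w h hw hh1 hhw T hT => ?_⟩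
  have capT := Cap_nonneg κ hκ' (show 0 ≤ h by omega) hT
  have hnn := hh_nonneg (q := 1/2) (by norm_num) (by norm_num) w h
  have hX : 0 ≤ hh (1/2) w h * Cap h T := by positivity
  rcases T.eq_empty_or_nonempty with he' | he'
  · rw [he', Cr_empty_right]
    rw [he'] at hX
    positivity
  rcases lt_or_ge w 3 with hw3 | hw3
  · -- thin rectangles
    have hhk : h ≤ 2 * κ := by nlinarith
    have hq : 1 ≤ (2 * κ + 1) * q h := by
      have := q_cmp (a := h) (b := 0) (k := 2 * κ + 1) (by omega) (by omega) le_rfl (by omega)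
      rw [q_zero] at this
      push_cast at this
      exact this
    have f2 := h0 h hh1 T hT he'
    have f3 := h3 w h hh1 (by omega) (by push_cast; omega)
    have hqh := q_pos (n := h) (by omega)
    have g2 : c3 * (c0 * q h) ≤ hh (1/2) w h * Cap h T :=
      mul_le_mul f3 f2 (by positivity) hnn
    have g3 : 1 ≤ B * (hh (1/2) w h * Cap h T) := by
      calc (1 : ℝ) ≤ (2 * κ + 1) * q h := hq
        _ = B * (c3 * (c0 * q h)) := by
          rw [hB]; field_simp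
        _ ≤ B * (hh (1/2) w h * Cap h T) := mul_le_mul_of_nonneg_left g2 hB0.le
    calc Pr P (RE 0 w 0 h) (Cr w h (Icc 0 h) T) ≤ 1 := Pr_le_one okP _ _
      _ ≤ B * (hh (1/2) w h * Cap h T) := g3
      _ ≤ (A + B) * (hh (1/2) w h * Cap h T) :=
        mul_le_mul_of_nonneg_right (by linarith) hX
  · obtain ⟨m, hm⟩ : ∃ m, m = min (w / 3) h := ⟨_, rfl⟩
    have hm1 : 1 ≤ m := by rw [hm]; exact le_min (by omega) hh1
    have hmw : 3 * m ≤ w := by
      have : m ≤ w / 3 := by rw [hm]; exact min_le_left _ _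
      omega
    have hmh : m ≤ h := by rw [hm]; exact min_le_right _ _
    have hhm : h ≤ 6 * κ * m := by
      rw [hm]
      rcases min_choice (w / 3) h with h4 | h4
      · rw [h4]
        have h5 : w ≤ 6 * (w / 3) := by omega
        calc h ≤ κ * w := hhw
          _ ≤ κ * (6 * (w / 3)) := mul_le_mul_of_nonneg_left h5 (by omega)
          _ = 6 * κ * (w / 3) := by ring
      · rw [h4]
        nlinarith
    have hmk : m ≤ 6 * κ * h := by nlinarith
    have hT6 : ∀ x ∈ T, Mid (6 * κ) h x := by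
      intro x hx
      obtain ⟨u1, u2⟩ := hT x hx
      obtain ⟨u3, u4⟩ := (hT x hx).pos hκ' (by omega)
      exact ⟨by nlinarith, by nlinarith⟩
    have a5 := (h1 h m hh1 hhm hmk T hT6).2
    rw [← pr_LH, ← pr_RH w m h T] at a5
    have hp1 : Pr P (LRE 0 (w - m) 0 h) (LRc 0 (w - m) 0 h) = hh (1/2) (w - m) h := by
      have := pr_LRc (1/2) (Finset.Subset.refl (LRE 0 (w - m) 0 h))
      rw [sub_zero, sub_zero] at this
      exact this
    have d2 : Disjoint (LRE 0 (w - m) 0 h) (RE (w - m) w 0 h) := by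
      rw [Finset.disjoint_left]
      rintro ⟨x, y, bo⟩ k1 k2
      cases bo
      · rw [mem_RE_false] at k2
        rw [mem_LRE_false] at k1
        omega
      · rw [mem_RE_true] at k2
        rw [mem_LRE_true] at k1
        omega
    have k1 : Pr P (RE 0 w 0 h) (Cr w h (Icc 0 h) T) ≤
        Pr P (RE 0 w 0 h) (fun F => LRc 0 (w - m) 0 h F ∧ RH w m h T F) :=
      Pr_mono okP (fun F _ hF => cut' hm1 (by omega)
        (fun x hx => (hT x hx).pos hκ' (by omega)) hF)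
    have k3 := indep2 (RE 0 w 0 h) _ _ d2 (LRc_inc 0 (w - m) 0 h)
      (RH_inc w m h T) (LRc_loc 0 (w - m) 0 h) (RH_loc w m h T)
    rw [hp1] at k3
    have g1 := hh_glue (q := 1/2) (by norm_num) (by norm_num) (w1 := w - m) (w2 := 2 * m)
      (v := m) (h := h) (by omega) (by omega) (by omega) (by omega)
    rw [show w - m + 2 * m - m = w by ring] at g1
    have f3 := h3 (2 * m) h hh1 (by omega) (by push_cast; omega)
    have f6 := h6 h m hm1 (by omega) (by push_cast; exact hhm)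
    have hn2 := hh_nonneg (q := 1/2) (by norm_num) (by norm_num) (w - m) h
    have g2 : hh (1/2) (w - m) h * (c3 * c6) ≤ hh (1/2) w h := by
      refine le_trans ?_ g1
      rw [mul_assoc]
      apply mul_le_mul_of_nonneg_left _ hn2
      exact mul_le_mul f3 f6 hc6.le (hh_nonneg (by norm_num) (by norm_num) _ _)
    calc Pr P (RE 0 w 0 h) (Cr w h (Icc 0 h) T)
        ≤ hh (1/2) (w - m) h * Pr P (RE (w - m) w 0 h) (RH w m h T) := k1.trans k3
      _ ≤ hh (1/2) (w - m) h * (C * Cap h T) := mul_le_mul_of_nonneg_left a5 hn2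
      _ = A * ((hh (1/2) (w - m) h * (c3 * c6)) * Cap h T) := by
          rw [hA]; field_simp
      _ ≤ A * (hh (1/2) w h * Cap h T) := by
          apply mul_le_mul_of_nonneg_left _ hA0.le
          exact mul_le_mul_of_nonneg_right g2 capT
      _ ≤ (A + B) * (hh (1/2) w h * Cap h T) :=
          mul_le_mul_of_nonneg_right (by linarith) hX

end Pool.Agent.X145.RC
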